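import Pool.Agent.CSG.Sin
import Pool.Agent.CSG.Cvx
import Pool.Agent.CSG.Win
import Pool.Agent.CSG.Ray
import Pool.Agent.CSG.Sta
import Pool.Agent.CSG.AFc
import Pool.Agent.CSG.Cnt
import Pool.Agent.CSG.Bin
import Pool.Agent.CSG.Blk1
import Pool.Agent.CSG.Blk2
import Pool.Agent.CSG.BlkC
import Pool.Agent.CSG.Zon
import Pool.Agent.CSG.Gale
import Pool.Agent.CSG.Fac
import Pool.Agent.CSG.Fv
import Pool.Agent.CSG.Upp
import Pool.Agent.CSG.RegA
import Pool.Agent.CSG.RegB
import Pool.Agent.CSG.RealA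
import Pool.Agent.CSG.RealB
import Pool.Agent.CSG.Low
import Pool.Agent.CSG.Main

/-!
# The maximum of `g_l` for centrally symmetric simplicial `(3l-2)`-polytopes with `6l` vertices

For every `l ≥ 2` the maximum of `g_l` over all centrally symmetric simplicial
`(3l-2)`-polytopes with `6l` vertices is `∑_{j ≤ l} C(3l, j) - 2l`.
-/

noncomputable section

namespace Pool.Agent.Results.MP_54ed1a_co.FirstNonNeighborly

open Pool.CS4 Pool.CSG

/-- the start of a set which is not a face -/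
theorem sta : St_Sta := thm_Sta thm_Cvx (thm_Ray thm_Sin thm_Win)

/-- the face numbers from the planar diagram -/
theorem fvs : St_Fv := thm_Fv (thm_Fac thm_Zon) thm_AFc

/-- the upper bound -/
theorem upper : St_Upp :=
  thm_Upp thm_Gale fvs (thm_Cnt thm_Win sta) thm_Bin
    (thm_BlkC thm_Win sta (thm_Blk1 thm_Sin thm_Win) (thm_Blk2 thm_Sin thm_Win))

/-- the example -/
theorem lower : St_Low :=
  thm_Low (thm_RegB thm_RegA thm_Win (thm_Ray thm_Sin thm_Win))
    (thm_RealB thm_RealA thm_Zon thm_Sin thm_Win) fvs thm_Bin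

theorem result (l : ℕ) (hl : 2 ≤ l) :
    IsGreatest {g : ℤ | ∃ V : Finset (E (3 * l - 2)), IsCSSimplicial (3 * l - 2) V ∧
      V.card = 6 * l ∧ gv (3 * l - 2) V l = g}
      ((∑ j ∈ Finset.range (l + 1), ((3 * l).choose j : ℤ)) - 2 * l) :=
  main upper lower l hl

end Pool.Agent.Results.MP_54ed1a_co.FirstNonNeighborly
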