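import Pool.Agent.CS5.Cf
import Pool.Agent.CS5.Dat
import Pool.Agent.CS5.Dat6
import Pool.Agent.CS7.Dat
import Pool.Agent.CSLB.Sgn
import Pool.Agent.CSLB.Lam
import Pool.Agent.CSLB.Crs
import Pool.Agent.CSLB.Inn
import Pool.Agent.CSLB.Par
import Pool.Agent.CSLB.FC
import Pool.Agent.CSLB.FI
import Pool.Agent.CSLB.Cf
import Pool.Agent.CSLB.Gn
import Pool.Agent.CSLB.Ct
import Pool.Agent.CS4.GConf
import Pool.Agent.CS4.Gg2d

/-!
# Centrally symmetric simplicial polytopes with many edges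

For every `d ≥ 5` and every even `n ≥ 2 d` there is a centrally symmetric simplicial `d`-polytope
with `n` vertices and `g_2 ≥ (1/2 - 1/(4 m)) n^2 - (d+1) n`, where `m = 7` for `d = 5`, `m = 12` for `d = 6`, `m = 19` for `d = 7` and
`m = 2^(d-3)` for `d ≥ 8`.
-/

noncomputable section

namespace Pool.Agent.Results.MP_54ed1a_co.MoreClusters

open Pool.CS4 Pool.CSLB

theorem result (d : ℕ) (hd : 5 ≤ d) (n : ℕ) (hn : 2 * d ≤ n) (he : Even n) (m : ℕ)
    (hm : m = if d = 5 then 7 else if d = 6 then 12 else if d = 7 then 19 else 2 ^ (d - 3)) :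
    ∃ V : Finset (E d), IsCSSimplicial d V ∧ V.card = n ∧
      (1 / 2 - 1 / (4 * (m : ℝ))) * (n : ℝ) ^ 2 - (d + 1) * n ≤ (gv d V 2 : ℝ) := by
  classical
  obtain ⟨N, rfl⟩ := he.exists_two_nsmul n
  rw [nsmul_eq_mul, Nat.cast_ofNat] at *
  -- the configuration with `m` clusters
  obtain ⟨hr1, v, hv1, hv2⟩ : 1 ≤ m ∧
      ∃ v : Fin N → E d, (∀ p, SV v p) ∧ ∀ p q, Good m p q → SE v p q := by
    by_cases h5 : d = 5
    · subst h5
      rw [if_pos rfl] at hm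
      subst hm
      obtain ⟨a, b, w, c, hD⟩ := Pool.CS5.thm_Dat
      exact ⟨by norm_num, Pool.CS5.thm_Cf 5 7 a b w c hD (by norm_num) N (by omega)⟩
    by_cases h6 : d = 6
    · subst h6
      rw [if_neg (by norm_num), if_pos rfl] at hm
      subst hm
      obtain ⟨a, b, w, c, hD⟩ := Pool.CS5.thm_Dat6
      exact ⟨by norm_num, Pool.CS5.thm_Cf 6 12 a b w c hD (by norm_num) N (by omega)⟩
    by_cases h7 : d = 7
    · subst h7
      rw [if_neg (by norm_num), if_neg (by norm_num), if_pos rfl] at hm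
      subst hm
      obtain ⟨a, b, w, c, hD⟩ := Pool.CS7.thm_Dat
      exact ⟨by norm_num, Pool.CS5.thm_Cf 7 19 a b w c hD (by norm_num) N (by omega)⟩
    rw [if_neg h5, if_neg h6, if_neg h7] at hm
    obtain ⟨k, rfl⟩ : ∃ k, d = k + 2 := ⟨d - 2, by omega⟩
    have h1 : k + 2 - 3 = k - 1 := by omega
    rw [h1] at hm
    subst hm
    exact ⟨Nat.one_le_two_pow, cf sgn par (fc (crs lam)) (fi inn) k N (by omega) (by omega)⟩
  obtain ⟨V, hV, hc, hne⟩ := gn d N m v (by omega) (by omega) hv1 hv2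
  obtain ⟨hS, hf⟩ := gconf d V (by omega) hV
  have hg := gg2d d V (by omega) hS (by omega)
  have hct := ct N m hr1
  refine ⟨V, hS, hc, ?_⟩
  have h1 : (4 - 2 / (m : ℝ)) * (N : ℝ) ^ 2 - 4 * N ≤ 2 * (fv V 2 : ℝ) := by
    refine hct.trans ?_
    rw [hf] at hne
    exact_mod_cast hne
  have h2 : (gv d V 2 : ℝ) = (fv V 2 : ℝ) - (d : ℝ) * (V.card : ℝ) +
      (((d + 1).choose 2 : ℕ) : ℝ) := by
    rw [hg]
    push_cast
    ring
  have h3 : (0 : ℝ) ≤ (((d + 1).choose 2 : ℕ) : ℝ) := Nat.cast_nonneg _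
  have h5 : (0 : ℝ) < (m : ℝ) := by exact_mod_cast hr1
  have h6 : (1 : ℝ) / (4 * (m : ℝ)) = (2 / (m : ℝ)) / 8 := by
    field_simp
    norm_num
  rw [h2, hc, h6]
  push_cast at h1 h3 ⊢
  nlinarith

end Pool.Agent.Results.MP_54ed1a_co.MoreClusters
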