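import Pool.Agent.CS4.GConf
import Pool.Agent.CS4.GFour
import Pool.Agent.CS4.GFac
import Pool.Agent.CS4.GSeg
import Pool.Agent.CS4.GStack
import Pool.Agent.CS4.GPers
import Pool.Agent.CS4.GLim
import Pool.Agent.CS4.GExcep
import Pool.Agent.CS4.GLocal
import Pool.Agent.CS4.GGPex
import Pool.Agent.CS4.GPath
import Pool.Agent.CS4.GIVT
import Pool.Agent.CS4.GSub
import Pool.Agent.CS4.GBase
import Pool.Agent.CS4.GGPd
import Pool.Agent.CS4.GPert
import Pool.Agent.CS4.Gg2d
import Pool.Agent.CS4.GNoGap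

/-!
# No gaps in the values of `g_2` for centrally symmetric simplicial polytopes

For every `d ≥ 4` the set of the values of `g_2` of the centrally symmetric simplicial
`d`-polytopes with `n` vertices has no gaps: it is an arithmetic progression of step 2.
-/

noncomputable section

namespace Pool.Agent.Results.MP_54ed1a_co.NoGaps

open Pool.CS4

/-- no gaps below the value of `g_2` of a given polytope -/
theorem nogap : Stmt_NoGap :=
  gnogap gconf (gpert ggpd) gstack ggpex
    (givt gfac gseg gstack gpath (glocal gpers glim gexcep) gfour) gsub (gbase gfac) gg2d gfour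

/-- the parity of `g_2` -/
theorem parity {d : ℕ} (hd : 4 ≤ d) {V : Finset (E d)} (hV : IsCSSimplicial d V) :
    2 ∣ gv d V 2 - ((d.choose 2 : ℤ) - d) := by
  obtain ⟨V₀, hV₀, hc, hne⟩ := gpert ggpd d V (by omega) hV
  obtain ⟨hb, -, hev, -⟩ := gbase gfac d V₀ (by omega) hV₀
  have h4 := gfour d V₀ (by omega) hV₀
  rw [hc] at hev hb
  rw [hne] at h4
  have hg := gg2d d V (by omega) hV (by omega)
  have hch : ((d + 1).choose 2 : ℤ) = d.choose 2 + d := by
    have := Nat.choose_succ_succ d 1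
    rw [Nat.choose_one_right] at this
    have h : (d + 1).choose 2 = d + d.choose 2 := this
    rw [h]
    push_cast
    ring
  rw [hg, hch]
  obtain ⟨a, ha⟩ := h4
  obtain ⟨b, hb⟩ := hev
  have e1 : (fv V 2 : ℤ) = 2 * a := by
    have : fv V 2 = 2 * a := by omega
    rw [this]
    push_cast
    ring
  rw [e1, hb]
  push_cast
  exact ⟨(a : ℤ) - d * b + d, by ring⟩

theorem result (d : ℕ) (hd : 4 ≤ d) (n : ℕ) (g : ℤ) (hg : (d.choose 2 : ℤ) - d ≤ g) :
    (∃ V : Finset (E d), IsCSSimplicial d V ∧ V.card = n ∧ gv d V 2 = g) ↔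
      2 ∣ g - ((d.choose 2 : ℤ) - d) ∧
        ∃ V : Finset (E d), IsCSSimplicial d V ∧ V.card = n ∧ g ≤ gv d V 2 := by
  constructor
  · rintro ⟨V, hV, hn, rfl⟩
    exact ⟨parity hd hV, V, hV, hn, le_rfl⟩
  · rintro ⟨h1, V, hV, rfl, h2⟩
    refine nogap d V g hd hV hg h2 ?_
    have h3 := parity hd hV
    have h4 : gv d V 2 - g = (gv d V 2 - ((d.choose 2 : ℤ) - d)) -
        (g - ((d.choose 2 : ℤ) - d)) := by ring
    rw [h4]
    exact dvd_sub h3 h1

end Pool.Agent.Results.MP_54ed1a_co.NoGaps
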