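import Pool.Agent.CS4.Six
import Pool.Agent.CS4.Pig
import Pool.Agent.CS4.ES
import Pool.Agent.CS4.Cls
import Pool.Agent.CS4.Up
import Pool.Agent.CS4.Curve
import Pool.Agent.CS4.Gen
import Pool.Agent.CS4.Simp
import Pool.Agent.CS4.Cnt
import Pool.Agent.CS4.Low
import Pool.Agent.CS4.G2

/-!
# The maximum of `g_2` for centrally symmetric simplicial 4-polytopes

The maximum of `g_2` over all centrally symmetric simplicial 4-polytopes with `n` vertices is
`(3/8 + o(1)) n^2`.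
-/

noncomputable section

namespace Pool.Agent.Results.MP_54ed1a_co.SharpDimFour

open Pool.CS4

theorem result (ε : ℝ) (hε : 0 < ε) : ∃ n₀ : ℕ, ∀ n : ℕ, n₀ ≤ n → Even n →
    (∀ V : Finset (E 4), IsCSSimplicial 4 V → V.card = n →
      (gv 4 V 2 : ℝ) ≤ (3 / 8 + ε) * (n : ℝ) ^ 2) ∧
    (∃ V : Finset (E 4), IsCSSimplicial 4 V ∧ V.card = n ∧
      (3 / 8 - ε) * (n : ℝ) ^ 2 ≤ (gv 4 V 2 : ℝ)) := by
  obtain ⟨n₁, h₁⟩ := up six pig es cls ε hε
  obtain ⟨n₂, h₂⟩ := exists_nat_gt (5 / ε)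
  have hl := low gen (simp_ curve) (cnt curve)
  refine ⟨max (max n₁ n₂) 10, fun n hn hev => ⟨?_, ?_⟩⟩
  · intro V hV hc
    have h3 := h₁ V hV (by rw [hc]; exact (le_max_left _ _).trans ((le_max_left _ _).trans hn))
    have h4 := g2 V hV (by rw [hc]; exact le_trans (by norm_num) ((le_max_right _ _).trans hn))
    have h5 : (gv 4 V 2 : ℝ) = (fv V 2 : ℝ) - 4 * (V.card : ℝ) + 10 := by
      rw [h4]
      push_cast
      ring
    have h6 : (10 : ℝ) ≤ n := by exact_mod_cast (le_max_right _ _).trans hn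
    rw [h5, ← hc]
    rw [← hc] at h6
    linarith
  · obtain ⟨N, rfl⟩ := hev.exists_two_nsmul n
    have h6 : 10 ≤ 2 • N := (le_max_right _ _).trans hn
    rw [nsmul_eq_mul, Nat.cast_ofNat] at *
    obtain ⟨V, hV, hc, hf⟩ := hl N (by omega)
    refine ⟨V, hV, hc, ?_⟩
    have h4 := g2 V hV (by omega)
    have h5 : (gv 4 V 2 : ℝ) = (fv V 2 : ℝ) - 4 * (V.card : ℝ) + 10 := by
      rw [h4]
      push_cast
      ring
    have h7 : (n₂ : ℝ) ≤ 2 * N := by
      have : n₂ ≤ 2 * N := (le_max_right _ _).trans ((le_max_left _ _).trans hn)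
      exact_mod_cast this
    have h8 : 5 < ε * (2 * N) := by
      have : 5 / ε < 2 * N := h₂.trans_le h7
      rwa [div_lt_iff₀' hε] at this
    rw [h5, hc]
    push_cast
    have h9 : (0 : ℝ) ≤ N := Nat.cast_nonneg N
    nlinarith
  
end Pool.Agent.Results.MP_54ed1a_co.SharpDimFour
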